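import Pool.Agent.Lib.MP_78ca69_co.F5.Defs

set_option autoImplicit false

namespace F5

open Finset

/-- Row A1. `2 S - M` is 5-regular. -/
theorem dbl_deg {V : Type} [Finite V] {S M : SimpleGraph V} (hS : Cubic S)
    (hM : PerfectMatching S M) (v : V) : {q : DE S M | v ∈ dends S M q}.ncard = 5 := by
  classical
  obtain ⟨w0, hw0, huniq⟩ := hM.2 v
  have hw0S : w0 ∈ S.neighborSet v := hM.1 hw0
  have hinj : Function.Injective (fun q : DE S M => q.1) := fun a b h => Subtype.ext h
  rw [← Set.ncard_image_of_injective {q : DE S M | v ∈ dends S M q} hinj]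
  have himg : (fun q : DE S M => q.1) '' {q : DE S M | v ∈ dends S M q} =
      (fun w => (s(v, w), false)) '' (S.neighborSet v) ∪
        (fun w => (s(v, w), true)) '' (S.neighborSet v \ {w0}) := by
    ext ⟨e, b⟩
    constructor
    · rintro ⟨q, hq, hqe'⟩
      have hqe : q.1 = (e, b) := hqe'
      have hve : v ∈ e := by
        have h1 : v ∈ q.1.1 := hq
        rw [hqe] at h1
        exact h1
      obtain ⟨w, rfl⟩ := hve
      have hp := q.2
      rw [hqe] at hp
      obtain ⟨h1, h2⟩ := hp
      have h1' : S.Adj v w := h1
      cases b with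
      | false => exact Or.inl ⟨w, h1', rfl⟩
      | true =>
        refine Or.inr ⟨w, ⟨h1', ?_⟩, rfl⟩
        intro hww
        have hww' : w = w0 := hww
        apply h2 rfl
        show M.Adj v w
        rw [hww']
        exact hw0
    · rintro (⟨w, hw, hwe⟩ | ⟨w, hw, hwe⟩)
      · have hwe' : (s(v, w), false) = (e, b) := hwe
        refine ⟨⟨(e, b), ?_⟩, ?_, rfl⟩
        · rw [← hwe']
          exact ⟨hw, fun h => by simp at h⟩
        · show v ∈ e
          have := congrArg Prod.fst hwe'
          simp only at this
          rw [← this]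
          exact Sym2.mem_mk_left v w
      · have hwe' : (s(v, w), true) = (e, b) := hwe
        refine ⟨⟨(e, b), ?_⟩, ?_, rfl⟩
        · rw [← hwe']
          refine ⟨hw.1, fun _ hmem => hw.2 ?_⟩
          have hmem' : M.Adj v w := hmem
          exact huniq w hmem'
        · show v ∈ e
          have := congrArg Prod.fst hwe'
          simp only at this
          rw [← this]
          exact Sym2.mem_mk_left v w
  rw [himg]
  have hinj2 : ∀ b : Bool, Function.Injective (fun w : V => (s(v, w), b)) := by
    intro b w w' h
    have h1 : s(v, w) = s(v, w') := congrArg Prod.fst h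
    exact Sym2.congr_right.mp h1
  rw [Set.ncard_union_eq]
  · rw [Set.ncard_image_of_injective _ (hinj2 false), Set.ncard_image_of_injective _ (hinj2 true),
      hS v, Set.ncard_sdiff_singleton_of_mem hw0S, hS v]
  · rw [Set.disjoint_left]
    rintro _ ⟨w, _, rfl⟩ ⟨w', _, h⟩
    have := congrArg Prod.snd h
    simp at this

end F5
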