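import Pool.Agent.Lib.MP_78ca69_co.F5.Defs

/-!
# Row A2: sets which span a forest in a cubic graph
-/

set_option autoImplicit false
set_option linter.unusedSectionVars false

namespace F5

open Finset

open Classical in
/-- A finite non-empty forest has at most `|W| - 1` edges. -/
theorem A2_forest {W : Type} [Fintype W] [Nonempty W] {G : SimpleGraph W} (h : G.IsAcyclic) :
    G.edgeSet.ncard + 1 ≤ Fintype.card W := by
  obtain ⟨F, hF, _, hT⟩ :=
    (SimpleGraph.connected_top (V := W)).exists_isTree_le_of_le_of_isAcyclic (H := G) le_top h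
  have h1 := hT.card_edgeFinset
  have h2 : G.edgeFinset.card ≤ F.edgeFinset.card :=
    Finset.card_le_card (SimpleGraph.edgeFinset_mono hF)
  have h3 : G.edgeSet.ncard = G.edgeFinset.card := by
    rw [Set.ncard_eq_toFinset_card', SimpleGraph.edgeFinset]
  omega

open Classical in
theorem A2_darts {V : Type} [Fintype V] {S : SimpleGraph V} (X : Finset V) :
    (univ.filter fun p : V × V => p.1 ∈ X ∧ p.2 ∈ X ∧ S.Adj p.1 p.2).card ≤
      2 * (S.induce (X : Set V)).edgeSet.ncard := by
  have h3 : (S.induce (X : Set V)).edgeSet.ncard = (S.induce (X : Set V)).edgeFinset.card := by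
    rw [Set.ncard_eq_toFinset_card', SimpleGraph.edgeFinset]
  rw [h3, ← SimpleGraph.dart_card_eq_twice_card_edges, ← Finset.card_univ]
  refine Finset.card_le_card_of_surjOn
    (fun d : (S.induce (X : Set V)).Dart => ((d.fst : V), (d.snd : V))) ?_
  rintro ⟨x, y⟩ hp
  have hp' := (Finset.mem_filter.1 (Finset.mem_coe.1 hp)).2
  exact ⟨⟨(⟨x, Finset.mem_coe.2 hp'.1⟩, ⟨y, Finset.mem_coe.2 hp'.2.1⟩), hp'.2.2⟩,
    Finset.mem_coe.2 (Finset.mem_univ _), rfl⟩

open Classical in
theorem A2_total {V : Type} [Fintype V] {S : SimpleGraph V} (hS : Cubic S) (X : Finset V) :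
    (univ.filter fun p : V × V => p.1 ∈ X ∧ S.Adj p.1 p.2).card = 3 * X.card := by
  have h1 : (univ.filter fun p : V × V => p.1 ∈ X ∧ S.Adj p.1 p.2) =
      (X ×ˢ univ).filter (fun p : V × V => S.Adj p.1 p.2) := by
    ext p
    simp only [mem_filter, mem_univ, true_and, mem_product, and_true]
  have h2 : ∀ x ∈ X, (univ.filter fun y => S.Adj x y).card = 3 := by
    intro x _
    rw [← hS x, Set.ncard_eq_toFinset_card']
    congr 1
    ext y
    simp
  rw [h1, card_filter, sum_product]
  calc ∑ x ∈ X, ∑ y, (if S.Adj x y then 1 else 0) = ∑ x ∈ X, 3 := by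
        refine sum_congr rfl fun x hx => ?_
        rw [← card_filter]
        exact h2 x hx
    _ = 3 * X.card := by rw [sum_const, smul_eq_mul, mul_comm]

open Classical in
theorem A2_bd {V : Type} [Fintype V] {S : SimpleGraph V} (X : Finset V) :
    (univ.filter fun p : V × V => p.1 ∈ X ∧ p.2 ∉ X ∧ S.Adj p.1 p.2).card ≤
      (Boundary S (X : Set V)).ncard := by
  rw [← Set.ncard_coe_finset]
  refine Set.ncard_le_ncard_of_injOn (fun p : V × V => s(p.1, p.2)) ?_ ?_ (Set.toFinite _)
  · rintro ⟨x, y⟩ hp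
    have hp' := (Finset.mem_filter.1 (Finset.mem_coe.1 hp)).2
    exact ⟨hp'.2.2, x, Finset.mem_coe.2 hp'.1, y, fun hy => hp'.2.1 (Finset.mem_coe.1 hy), rfl⟩
  · rintro ⟨x, y⟩ hp ⟨x', y'⟩ hq he
    have hp' := (Finset.mem_filter.1 (Finset.mem_coe.1 hp)).2
    have hq' := (Finset.mem_filter.1 (Finset.mem_coe.1 hq)).2
    rcases Sym2.eq_iff.1 he with ⟨h1, h2⟩ | ⟨h1, h2⟩
    · exact Prod.ext h1 h2
    · exfalso
      have h1' : x = y' := h1
      exact hq'.2.1 (h1' ▸ hp'.1)

/-- Row A2. In a cubic graph a non-empty set `X` of vertices which spans a forest is left by at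
least `|X| + 2` edges. Proof: a finite non-empty forest has at most `|X| - 1` edges (Mathlib or:
induction, an acyclic graph on a non-empty finite set has a vertex of degree at most one), and
`3 |X| = 2 |E(S[X])| + |Boundary|` (count pairs (x, y) with `x ∈ X`, `S.Adj x y`). -/
theorem forest_boundary {V : Type} [Finite V] {S : SimpleGraph V} (hS : Cubic S) (X : Set V)
    (hX : X.Nonempty) (hac : (S.induce X).IsAcyclic) : X.ncard + 2 ≤ (Boundary S X).ncard := by
  classical
  have := Fintype.ofFinite V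
  obtain ⟨Y, rfl⟩ : ∃ Y : Finset V, X = (Y : Set V) := ⟨X.toFinset, by simp⟩
  rw [Set.ncard_coe_finset]
  have hne : Nonempty (Y : Set V) := hX.to_subtype
  have h1 := A2_forest hac
  have h2 := A2_darts (S := S) Y
  have h3 := A2_total hS Y
  have h4 := A2_bd (S := S) Y
  have h5 : Fintype.card (Y : Set V) = Y.card := by simp
  have h6 : (univ.filter fun p : V × V => p.1 ∈ Y ∧ S.Adj p.1 p.2).card ≤
      (univ.filter fun p : V × V => p.1 ∈ Y ∧ p.2 ∈ Y ∧ S.Adj p.1 p.2).card +
      (univ.filter fun p : V × V => p.1 ∈ Y ∧ p.2 ∉ Y ∧ S.Adj p.1 p.2).card := by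
    refine le_trans (card_le_card ?_) (card_union_le _ _)
    intro p hp
    rw [mem_union, mem_filter, mem_filter]
    have hp' := (mem_filter.1 hp).2
    by_cases hy : p.2 ∈ Y
    · exact Or.inl ⟨mem_univ _, hp'.1, hy, hp'.2⟩
    · exact Or.inr ⟨mem_univ _, hp'.1, hy, hp'.2⟩
  omega

end F5
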