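import Pool.Agent.Lib.MP_78ca69_co.F5.Defs

set_option autoImplicit false
set_option linter.unusedSectionVars false

namespace F5

open Finset

private def A3_f {V : Type} (S M : SimpleGraph V) (X : Set V) :
    (Boundary S X : Set (Sym2 V)) ⊕ (Boundary S X \ M.edgeSet : Set (Sym2 V)) →
      {q : DE S M | ∃ u ∈ X, ∃ v ∉ X, dends S M q = s(u, v)} := fun x =>
  match x with
  | Sum.inl e => ⟨⟨(e.1, false), e.2.1, fun h => Bool.noConfusion h⟩, e.2.2⟩
  | Sum.inr e => ⟨⟨(e.1, true), e.2.1.1, fun _ => e.2.2⟩, e.2.1.2⟩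

private lemma A3_bij {V : Type} (S M : SimpleGraph V) (X : Set V) :
    Function.Bijective (A3_f S M X) := by
  constructor
  · rintro (⟨a, ha⟩ | ⟨a, ha⟩) (⟨b, hb⟩ | ⟨b, hb⟩) h
    · have h1 : (a, false) = (b, false) := congrArg (fun z => z.1.1) h
      have h2 : a = b := (Prod.mk.inj h1).1
      subst h2
      rfl
    · have h1 : (a, false) = (b, true) := congrArg (fun z => z.1.1) h
      exact absurd (Prod.mk.inj h1).2 (by decide)
    · have h1 : (a, true) = (b, false) := congrArg (fun z => z.1.1) h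
      exact absurd (Prod.mk.inj h1).2 (by decide)
    · have h1 : (a, true) = (b, true) := congrArg (fun z => z.1.1) h
      have h2 : a = b := (Prod.mk.inj h1).1
      subst h2
      rfl
  · rintro ⟨⟨⟨e, b⟩, h1, h2⟩, h3⟩
    cases b with
    | false => exact ⟨Sum.inl ⟨e, h1, h3⟩, rfl⟩
    | true => exact ⟨Sum.inr ⟨e, ⟨h1, h3⟩, h2 rfl⟩, rfl⟩

/-- Row A3. Cuts of `2 S - M`: the copies `(e, false)` of all boundary edges and the copies
`(e, true)` of those outside `M`. -/
theorem dbl_cut {V : Type} [Finite V] {S M : SimpleGraph V} (X : Set V) :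
    {q : DE S M | ∃ u ∈ X, ∃ v ∉ X, dends S M q = s(u, v)}.ncard =
      (Boundary S X).ncard + (Boundary S X \ M.edgeSet).ncard := by
  have h := Nat.card_congr (Equiv.ofBijective _ (A3_bij S M X))
  rw [Nat.card_sum] at h
  rw [← Nat.card_coe_set_eq, ← Nat.card_coe_set_eq, ← Nat.card_coe_set_eq]
  exact h.symm

end F5
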