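import Pool.Agent.Lib.MP_78ca69_co.F5.Defs

set_option autoImplicit false

namespace F5

open Finset

/-- Row A4. At most `|X|` edges of a perfect matching leave `X` (each `x ∈ X` is in one edge of
`M`: injection `e ↦` its end in `X`). -/
theorem match_cut {V : Type} [Finite V] {S M : SimpleGraph V} (hM : PerfectMatching S M)
    (X : Set V) : (Boundary S X ∩ M.edgeSet).ncard ≤ X.ncard := by
  have hsub : Boundary S X ∩ M.edgeSet ⊆ (fun u => s(u, (hM.2 u).choose)) '' X := by
    rintro e ⟨⟨-, u, hu, v, -, rfl⟩, he⟩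
    have hadj : M.Adj u v := he
    exact ⟨u, hu, by rw [(hM.2 u).choose_spec.2 v hadj]⟩
  exact (Set.ncard_le_ncard hsub (Set.toFinite _)).trans (Set.ncard_image_le (Set.toFinite _))

end F5
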