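import Pool.Agent.Lib.MP_78ca69_co.F5.Defs

set_option autoImplicit false
set_option linter.unusedSectionVars false

namespace F5

open Finset

/-- the colour class of `k` -/
private def A5_cls {V : Type} {S M : SimpleGraph V} (c : DE S M → Fin 5) (k : Fin 5) : SimpleGraph V where
  Adj u v := ∃ q, dends S M q = s(u, v) ∧ c q = k
  symm := ⟨fun u v ⟨q, hq, hk⟩ => ⟨q, by rw [hq, Sym2.eq_swap], hk⟩⟩
  loopless := ⟨fun u ⟨q, hq, _⟩ => by
    have h1 := q.2.1
    have h2 : q.1.1 = s(u, u) := hq
    rw [h2, SimpleGraph.mem_edgeSet] at h1
    exact S.loopless.irrefl u h1⟩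

private lemma A5_adj {V : Type} {S M : SimpleGraph V} (c : DE S M → Fin 5) (k : Fin 5) (u v : V) :
    (A5_cls c k).Adj u v ↔ ∃ q, dends S M q = s(u, v) ∧ c q = k := Iff.rfl

private lemma A5_surj {V : Type} [Finite V] {S M : SimpleGraph V} (c : DE S M → Fin 5)
    (hc : ∀ e f, e ≠ f → (∃ v, v ∈ dends S M e ∧ v ∈ dends S M f) → c e ≠ c f) (v : V)
    (hdeg : {q : DE S M | v ∈ dends S M q}.ncard = 5) (k : Fin 5) :
    ∃ q, v ∈ dends S M q ∧ c q = k := by
  have hinj : Set.InjOn c {q : DE S M | v ∈ dends S M q} := by
    intro e he f hf hef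
    by_contra hne
    exact hc e f hne ⟨v, he, hf⟩ hef
  have h1 : (c '' {q : DE S M | v ∈ dends S M q}).ncard = 5 := by
    rw [Set.InjOn.ncard_image hinj, hdeg]
  have h2 : c '' {q : DE S M | v ∈ dends S M q} = Set.univ := by
    apply Set.eq_of_subset_of_ncard_le (Set.subset_univ _)
    rw [h1, Set.ncard_univ, Nat.card_eq_fintype_card, Fintype.card_fin]
  have h3 : k ∈ c '' {q : DE S M | v ∈ dends S M q} := by
    rw [h2]
    exact Set.mem_univ k
  obtain ⟨q, hq, hk⟩ := h3
  exact ⟨q, hq, hk⟩

theorem cover_of_colourable {V : Type} [Finite V] {S M : SimpleGraph V} (hS : Cubic S)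
    (hM : PerfectMatching S M) (hdeg : ∀ v, {q : DE S M | v ∈ dends S M q}.ncard = 5)
    (hc : Colourable (dends S M) 5) : InFulkersonCover S M := by
  obtain ⟨c, hc⟩ := hc
  have huniq : ∀ (v : V) (q q' : DE S M), v ∈ dends S M q → v ∈ dends S M q' → c q = c q' → q = q' := by
    intro v q q' h1 h2 h3
    by_contra hne
    exact hc q q' hne ⟨v, h1, h2⟩ h3
  refine ⟨Fin.cons (α := fun _ => SimpleGraph V) M (A5_cls c), ?_, ?_, ?_⟩
  · intro i
    refine Fin.cases ?_ ?_ i
    · exact hM
    · intro k
      rw [Fin.cons_succ]
      refine ⟨?_, ?_⟩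
      · intro u v huv
        obtain ⟨q, hq, -⟩ := huv
        have h1 := q.2.1
        have h2 : q.1.1 = s(u, v) := hq
        rw [h2, SimpleGraph.mem_edgeSet] at h1
        exact h1
      · intro v
        obtain ⟨q, hq, hk⟩ := A5_surj c hc v (hdeg v) k
        obtain ⟨w, hw⟩ := Sym2.mem_iff_exists.1 hq
        refine ⟨w, ⟨q, hw, hk⟩, ?_⟩
        rintro w' ⟨q', hq', hk'⟩
        have h1 : v ∈ dends S M q' := by
          rw [hq']
          exact Sym2.mem_mk_left v w'
        have h2 := huniq v q' q h1 hq (hk'.trans hk.symm)
        rw [h2, hw] at hq'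
        rcases Sym2.eq_iff.1 hq' with ⟨-, h⟩ | ⟨h, h'⟩
        · exact h.symm
        · rw [← h, h']
  · rfl
  · intro u v huv
    have hmem : s(u, v) ∈ S.edgeSet := (SimpleGraph.mem_edgeSet S).2 huv
    let q0 : DE S M := ⟨(s(u, v), false), hmem, fun h => absurd h Bool.false_ne_true⟩
    have hq0 : dends S M q0 = s(u, v) := rfl
    by_cases hMuv : M.Adj u v
    · have hset : {i | (Fin.cons (α := fun _ => SimpleGraph V) M (A5_cls c) i).Adj u v} = {0, (c q0).succ} := by
        ext i
        refine Fin.cases ?_ ?_ i
        · rw [Set.mem_ofPred_eq, Fin.cons_zero]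
          exact ⟨fun _ => Or.inl rfl, fun _ => hMuv⟩
        · intro k
          rw [Set.mem_ofPred_eq, Fin.cons_succ, A5_adj]
          constructor
          · rintro ⟨q, hq, hk⟩
            have hb : q.1.2 = false := by
              by_contra hb
              have hb' : q.1.2 = true := by
                cases h : q.1.2
                · exact absurd h hb
                · rfl
              have h1 := q.2.2 hb'
              have h2 : q.1.1 = s(u, v) := hq
              rw [h2] at h1
              exact h1 ((SimpleGraph.mem_edgeSet M).2 hMuv)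
            have hqq : q = q0 := by
              apply Subtype.ext
              exact Prod.ext hq hb
            right
            rw [Set.mem_singleton_iff, ← hk, hqq]
          · intro h
            rcases h with h | h
            · exact absurd h (Fin.succ_ne_zero k)
            · rw [Set.mem_singleton_iff] at h
              exact ⟨q0, hq0, (Fin.succ_injective 5 h).symm⟩
      rw [hset, Set.ncard_pair]
      exact (Fin.succ_ne_zero _).symm
    · let q1 : DE S M := ⟨(s(u, v), true), hmem, fun _ h => hMuv ((SimpleGraph.mem_edgeSet M).1 h)⟩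
      have hq1 : dends S M q1 = s(u, v) := rfl
      have hne : q0 ≠ q1 := by
        intro h
        have h1 : (q0.1.2 : Bool) = q1.1.2 := by rw [h]
        exact Bool.false_ne_true h1
      have hcne : c q0 ≠ c q1 := by
        apply hc q0 q1 hne
        exact ⟨u, by rw [hq0]; exact Sym2.mem_mk_left u v, by rw [hq1]; exact Sym2.mem_mk_left u v⟩
      have hset : {i | (Fin.cons (α := fun _ => SimpleGraph V) M (A5_cls c) i).Adj u v} =
          {(c q0).succ, (c q1).succ} := by
        ext i
        refine Fin.cases ?_ ?_ i
        · rw [Set.mem_ofPred_eq, Fin.cons_zero]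
          constructor
          · intro h
            exact absurd h hMuv
          · intro h
            rcases h with h | h
            · exact absurd h.symm (Fin.succ_ne_zero _)
            · exact absurd (Set.mem_singleton_iff.1 h).symm (Fin.succ_ne_zero _)
        · intro k
          rw [Set.mem_ofPred_eq, Fin.cons_succ, A5_adj]
          constructor
          · rintro ⟨q, hq, hk⟩
            rcases Bool.eq_false_or_eq_true q.1.2 with hb | hb
            · have hqq : q = q1 := by
                apply Subtype.ext
                exact Prod.ext hq hb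
              right
              rw [Set.mem_singleton_iff, ← hk, hqq]
            · have hqq : q = q0 := by
                apply Subtype.ext
                exact Prod.ext hq hb
              left
              rw [← hk, hqq]
          · intro h
            rcases h with h | h
            · exact ⟨q0, hq0, (Fin.succ_injective 5 h).symm⟩
            · rw [Set.mem_singleton_iff] at h
              exact ⟨q1, hq1, (Fin.succ_injective 5 h).symm⟩
      rw [hset, Set.ncard_pair]
      intro h
      exact hcne (Fin.succ_injective 5 h)

end F5
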