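import Pool.Agent.Lib.MP_78ca69_co.F5.Defs

/-!
Row f5-B10: multiplicities at most two
-/

set_option autoImplicit false

namespace F5

open Finset

/-- the edges that leave `{u, v}` have exactly one end in it -/
theorem B10_sub {V E : Type} [Fintype V] [DecidableEq V] [Fintype E] [DecidableEq E]
    (ends : E → Sym2 V) (u v : V) :
    (univ.filter fun e => ∃ a ∈ ({u, v} : Finset V), ∃ b ∉ ({u, v} : Finset V), ends e = s(a, b)) ⊆
      ((univ.filter fun e => u ∈ ends e) \ (univ.filter fun e => ends e = s(u, v))) ∪
      ((univ.filter fun e => v ∈ ends e) \ (univ.filter fun e => ends e = s(u, v))) := by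
  intro e he
  simp only [mem_filter, mem_univ, true_and, mem_insert, mem_singleton, not_or] at he
  obtain ⟨a, ha, b, ⟨hbu, hbv⟩, hab⟩ := he
  have hne : ends e ≠ s(u, v) := by
    intro h
    have h1 : b ∈ ends e := by rw [hab]; exact Sym2.mem_mk_right a b
    rw [h, Sym2.mem_iff] at h1
    rcases h1 with h1 | h1
    · exact hbu h1
    · exact hbv h1
  have h2 : a ∈ ends e := by rw [hab]; exact Sym2.mem_mk_left a b
  simp only [mem_union, mem_sdiff, mem_filter, mem_univ, true_and]
  rcases ha with rfl | rfl
  · exact Or.inl ⟨h2, hne⟩
  · exact Or.inr ⟨h2, hne⟩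

/-- Row B10. Multiplicities: in a 5-regular 5-edge-connected multigraph that is not 5-edge-colourable
every edge has multiplicity at most two. If `u ≠ v` are joined by at least three edges, then
`{u, v}` is left by at most `5 + 5 - 6 = 4` edges, so `{u, v}` is everything, there are exactly five
edges, and any injection `E → Fin 5` is a colouring. -/
theorem mult_le_two {V E : Type} [Fintype V] [DecidableEq V] [Fintype E] [DecidableEq E]
    (ends : E → Sym2 V) (h : Reg V E ends 5) (hc : ¬ Colourable ends 5) (u v : V) (huv : u ≠ v) :
    (univ.filter fun e => ends e = s(u, v)).card ≤ 2 := by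
  by_contra hm
  have hm' : 3 ≤ (univ.filter fun e => ends e = s(u, v)).card := by omega
  have hU : (univ.filter fun e => ends e = s(u, v)) ⊆ (univ.filter fun e => u ∈ ends e) := by
    intro e he
    simp only [mem_filter, mem_univ, true_and] at he ⊢
    rw [he]
    exact Sym2.mem_mk_left u v
  have hV : (univ.filter fun e => ends e = s(u, v)) ⊆ (univ.filter fun e => v ∈ ends e) := by
    intro e he
    simp only [mem_filter, mem_univ, true_and] at he ⊢
    rw [he]
    exact Sym2.mem_mk_right u v
  have hX : ({u, v} : Finset V) = univ := by
    by_contra hX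
    have h1 := h.cut ({u, v} : Finset V) ⟨u, mem_insert_self _ _⟩ hX
    have h2 := (card_le_card (B10_sub ends u v)).trans (card_union_le _ _)
    rw [card_sdiff_of_subset hU, card_sdiff_of_subset hV, h.deg u, h.deg v] at h2
    omega
  have hall : ∀ w : V, w = u ∨ w = v := by
    intro w
    have hw : w ∈ ({u, v} : Finset V) := by rw [hX]; exact mem_univ w
    simpa using hw
  have hE : ∀ e, u ∈ ends e := by
    intro e
    have hl := h.loop e
    revert hl
    generalize ends e = x
    induction x using Sym2.ind with
    | _ a b =>
      intro hl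
      rw [Sym2.mem_iff]
      rw [Sym2.mk_isDiag_iff] at hl
      rcases hall a with rfl | ha
      · exact Or.inl rfl
      · rcases hall b with rfl | hb
        · exact Or.inr rfl
        · exact absurd (ha.trans hb.symm) hl
  have hcard : Fintype.card E = 5 := by
    have h1 := h.deg u
    rw [filter_true_of_mem (fun e _ => hE e)] at h1
    exact h1
  refine hc ⟨fun e => Fin.cast hcard (Fintype.equivFin E e), fun e f hef _ hcf => hef ?_⟩
  exact (Fintype.equivFin E).injective (Fin.cast_injective hcard hcf)

end F5
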