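import Pool.Agent.Lib.MP_78ca69_co.F5.Defs

/-!
# Row B2: the dart system of a 5-regular multigraph
-/

set_option autoImplicit false
set_option linter.unusedSectionVars false

namespace F5

open Finset

/-- for every involution of five points there is a cyclic order in which no point is followed by
its partner -/
theorem B2_dec : ∀ R : Fin 5 → Fin 5, (∀ i, R (R i) = i) →
    ∃ π : Equiv.Perm (Fin 5), ∀ i, R (π i) ≠ π (i + 1) := by
  decide +kernel

/-- a cyclic order of five edges without equal consecutive ends (as in row B1, proved here again so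
that the file is independent) -/
theorem B2_cyclic {V : Type} (h : Fin 5 → V)
    (h2 : ∀ i j k : Fin 5, i ≠ j → j ≠ k → i ≠ k → ¬ (h i = h j ∧ h j = h k)) :
    ∃ π : Equiv.Perm (Fin 5), ∀ i, h (π i) ≠ h (π (i + 1)) := by
  classical
  have hex : ∀ i : Fin 5, ∃ r : Fin 5, h r = h i ∧ ∀ j, j ≠ i → h j = h i → r = j := by
    intro i
    by_cases hi : ∃ j, j ≠ i ∧ h j = h i
    · obtain ⟨j, hj, hji⟩ := hi
      refine ⟨j, hji, fun k hk hki => ?_⟩
      by_contra hjk
      exact h2 i j k (Ne.symm hj) hjk (Ne.symm hk) ⟨hji.symm, hji.trans hki.symm⟩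
    · refine ⟨i, rfl, fun k hk hki => ?_⟩
      exact absurd ⟨k, hk, hki⟩ hi
  choose R hR1 hR2 using hex
  have hinv : ∀ i, R (R i) = i := by
    intro i
    by_cases hi : R i = i
    · rw [hi, hi]
    · exact hR2 (R i) i (Ne.symm hi) (hR1 i).symm
  obtain ⟨π, hπ⟩ := B2_dec R hinv
  refine ⟨π, fun i hi => ?_⟩
  have hne : π (i + 1) ≠ π i := by
    intro hh
    have hi1 : i + 1 = i := π.injective hh
    clear hi hh
    revert hi1
    generalize i = k
    revert k
    decide
  exact hπ i (hR2 (π i) (π (i + 1)) hne hi.symm)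

theorem B2_local {V E : Type} [Fintype V] [DecidableEq V] [Fintype E] [DecidableEq E]
    (ends : E → Sym2 V) (h : Reg V E ends 5)
    (hmult : ∀ u v, u ≠ v → (univ.filter fun e => ends e = s(u, v)).card ≤ 2)
    (oth : V → E → V) (hoth : ∀ v e, v ∈ ends e → ends e = s(v, oth v e)) (v : V) :
    ∃ (a : Fin 5 → E) (b : E → Fin 5), (∀ i, v ∈ ends (a i)) ∧
      (∀ e, v ∈ ends e → a (b e) = e) ∧ (∀ i, b (a i) = i) ∧
      ∀ i, oth v (a i) ≠ oth v (a (i + 1)) := by
  classical
  have hcard : Fintype.card {e // v ∈ ends e} = 5 := by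
    rw [Fintype.card_subtype]; exact h.deg v
  obtain ⟨f0⟩ : Nonempty (Fin 5 ≃ {e // v ∈ ends e}) :=
    ⟨(Fintype.equivFinOfCardEq hcard).symm⟩
  obtain ⟨π, hπ⟩ := B2_cyclic (fun i => oth v (f0 i).1) (by
    intro i j k hij hjk hik ⟨e1, e2⟩
    have hi := hoth v _ (f0 i).2
    have hj := hoth v _ (f0 j).2
    have hk := hoth v _ (f0 k).2
    have hne : v ≠ oth v (f0 i).1 := by
      intro hv
      apply h.loop (f0 i).1
      rw [hi, ← hv]
      simp
    have hle := hmult v (oth v (f0 i).1) hne
    have hsub : ({(f0 i).1, (f0 j).1, (f0 k).1} : Finset E) ⊆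
        univ.filter fun e => ends e = s(v, oth v (f0 i).1) := by
      intro e he
      simp only [mem_insert, mem_singleton] at he
      simp only [mem_filter, mem_univ, true_and]
      rcases he with rfl | rfl | rfl
      · exact hi
      · rw [e1]; exact hj
      · rw [e1, e2]; exact hk
    have hcd : ({(f0 i).1, (f0 j).1, (f0 k).1} : Finset E).card = 3 := by
      rw [card_eq_three]
      refine ⟨_, _, _, ?_, ?_, ?_, rfl⟩
      · intro hh; exact hij (f0.injective (Subtype.ext hh))
      · intro hh; exact hik (f0.injective (Subtype.ext hh))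
      · intro hh; exact hjk (f0.injective (Subtype.ext hh))
    have := card_le_card hsub
    omega)
  refine ⟨fun i => (f0 (π i)).1,
    fun e => if he : v ∈ ends e then π.symm (f0.symm ⟨e, he⟩) else 0, ?_, ?_, ?_, ?_⟩
  · intro i; exact (f0 (π i)).2
  · intro e he
    simp [he]
  · intro i
    have hi := (f0 (π i)).2
    simp only [hi, dif_pos]
    simp
  · exact hπ

/-- Row B2. The dart system of a 5-regular multigraph with edge multiplicities at most two.
For every `v` take an equivalence `Fin 5 ≃ {e // v ∈ ends e}`, reordered by `cyclic_order` (applied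
to `i ↦` the other end); `d (v, i)` is the `i`-th edge and `τ (v, i)` is the pair `(w, j)`, `w` the
other end of `d (v, i)`, `j` its number at `w`. -/
theorem exists_darts {V E : Type} [Fintype V] [DecidableEq V] [Fintype E] [DecidableEq E]
    (ends : E → Sym2 V) (h : Reg V E ends 5)
    (hmult : ∀ u v, u ≠ v → (univ.filter fun e => ends e = s(u, v)).card ≤ 2) :
    ∃ (τ : V × Fin 5 → V × Fin 5) (d : V × Fin 5 → E), DartSys τ ∧
      (∀ p, ends (d p) = s(p.1, (τ p).1)) ∧ (∀ p q, d p = d q ↔ (q = p ∨ q = τ p)) ∧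
      ∀ e, ∃ p, d p = e := by
  classical
  have hex : ∀ (v : V) (e : E), ∃ w, v ∈ ends e → ends e = s(v, w) := by
    intro v e
    by_cases hv : v ∈ ends e
    · obtain ⟨w, hw⟩ := hv
      exact ⟨w, fun _ => hw⟩
    · exact ⟨v, fun hh => absurd hh hv⟩
  choose oth hoth using hex
  choose a b ha hab hba hord using B2_local ends h hmult oth hoth
  have hothne : ∀ v e, v ∈ ends e → oth v e ≠ v := by
    intro v e hv hh
    apply h.loop e
    rw [hoth v e hv, hh]
    simp
  have hothmem : ∀ v e, v ∈ ends e → oth v e ∈ ends e := by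
    intro v e hv
    rw [hoth v e hv]
    simp
  have hothoth : ∀ v e, v ∈ ends e → oth (oth v e) e = v := by
    intro v e hv
    have h1 := hoth v e hv
    have h2 := hoth (oth v e) e (hothmem v e hv)
    rw [h1] at h2
    rw [Sym2.eq_swap] at h2
    exact ((Sym2.congr_right).1 h2).symm
  refine ⟨fun p => (oth p.1 (a p.1 p.2), b (oth p.1 (a p.1 p.2)) (a p.1 p.2)),
    fun p => a p.1 p.2, ⟨?_, ?_, ?_⟩, ?_, ?_, ?_⟩
  · rintro ⟨v, i⟩
    simp only
    have hv := ha v i
    have hw := hothmem v _ hv
    have h1 : a (oth v (a v i)) (b (oth v (a v i)) (a v i)) = a v i := hab _ _ hw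
    rw [h1, hothoth v _ hv, hba]
  · rintro ⟨v, i⟩
    exact hothne v _ (ha v i)
  · intro v i
    exact hord v i
  · rintro ⟨v, i⟩
    exact hoth v _ (ha v i)
  · rintro ⟨v, i⟩ ⟨w, j⟩
    simp only
    constructor
    · intro heq
      have hv := ha v i
      have hw : w ∈ ends (a v i) := by rw [heq]; exact ha w j
      have hw' := hw
      rw [hoth v _ hv] at hw'
      rcases Sym2.mem_iff.1 hw' with hw1 | hw1
      · left
        subst hw1
        have : b w (a w i) = b w (a w j) := by rw [heq]
        rw [hba, hba] at this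
        rw [this]
      · right
        rw [Prod.mk.injEq]
        refine ⟨hw1, ?_⟩
        rw [← hw1, heq, hba]
    · rintro (hh | hh)
      · rw [Prod.mk.injEq] at hh
        rw [hh.1, hh.2]
      · rw [Prod.mk.injEq] at hh
        rw [hh.2, hh.1]
        exact (hab _ _ (hothmem v _ (ha v i))).symm
  · intro e
    obtain ⟨v, hv⟩ : ∃ v, v ∈ ends e := by
      induction' hx : ends e with x y
      exact ⟨x, by simp⟩
    exact ⟨(v, b v e), hab v e hv⟩

end F5
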