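import Pool.Agent.Lib.MP_78ca69_co.F5.Defs

set_option autoImplicit false
set_option linter.unusedSectionVars false

namespace F5

open Finset

private theorem B3_a : ∀ i j : Fin 5, i = j + 1 → j = i - 1 := by decide

private theorem B3_b : ∀ i j : Fin 5, j = i - 1 → i = j + 1 := by decide

private theorem B3_c : ∀ i : Fin 5, i + 1 ≠ i - 1 := by decide

/-- Row B3. The graph is cubic: the neighbours of `(v, i)` are `(v, i + 1)`, `(v, i - 1)` and
`τ (v, i)`. -/
theorem cubic_SG {V : Type} {τ : V × Fin 5 → V × Fin 5} (h : DartSys τ) : Cubic (SG h) := by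
  intro v
  obtain ⟨v, i⟩ := v
  have key : (SG h).neighborSet (v, i) = {τ (v, i), (v, i + 1), (v, i - 1)} := by
    ext ⟨w, j⟩
    simp only [SimpleGraph.mem_neighborSet, Set.mem_insert_iff, Set.mem_singleton_iff]
    constructor
    · rintro (h1 | ⟨h1, h2 | h2⟩)
      · exact Or.inl h1
      · right; left
        simp only at h1 h2
        rw [h1, h2]
      · right; right
        simp only at h1 h2
        rw [h1, B3_a i j h2]
    · rintro (h1 | h1 | h1)
      · exact Or.inl h1
      · right
        rw [Prod.mk.injEq] at h1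
        exact ⟨h1.1.symm, Or.inl h1.2⟩
      · right
        rw [Prod.mk.injEq] at h1
        exact ⟨h1.1.symm, Or.inr (B3_b i j h1.2)⟩
  rw [key, Set.ncard_eq_three]
  refine ⟨τ (v, i), (v, i + 1), (v, i - 1), ?_, ?_, ?_, rfl⟩
  · intro hh
    exact h.ne (v, i) (by rw [hh])
  · intro hh
    exact h.ne (v, i) (by rw [hh])
  · intro hh
    rw [Prod.mk.injEq] at hh
    exact B3_c i hh.2

end F5
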