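import Pool.Agent.Lib.MP_78ca69_co.F5.Defs

set_option autoImplicit false
set_option linter.unusedSectionVars false

namespace F5

open Finset

/-- Row B4. -/
theorem matching_MG {V : Type} {τ : V × Fin 5 → V × Fin 5} (h : DartSys τ) :
    PerfectMatching (SG h) (MG h) := by
  refine ⟨?_, ?_⟩
  · intro p q hpq
    exact Or.inl hpq
  · intro p
    refine ⟨τ p, rfl, ?_⟩
    intro q hq
    exact hq

end F5
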