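import Pool.Agent.Lib.MP_78ca69_co.F5.Defs

/-!
# Row B5: the components of `SG h \ MG h`
-/

set_option autoImplicit false
set_option linter.unusedSectionVars false

namespace F5

open Finset

/-- The step from `(v, i)` to `(v, i + 1)`. -/
lemma B5_step {V : Type} {τ : V × Fin 5 → V × Fin 5} (h : DartSys τ) (v : V) (i : Fin 5) :
    (SG h \ MG h).Adj (v, i) (v, i + 1) := by
  rw [SimpleGraph.sdiff_adj]
  refine ⟨Or.inr ⟨rfl, Or.inl rfl⟩, fun h1 => ?_⟩
  have h2 : (v, i + 1) = τ (v, i) := h1
  exact h.ne (v, i) (by rw [← h2])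

/-- Adjacent darts are at the same vertex. -/
lemma B5_adj {V : Type} {τ : V × Fin 5 → V × Fin 5} (h : DartSys τ) {p q : V × Fin 5}
    (hpq : (SG h \ MG h).Adj p q) : q.1 = p.1 := by
  rw [SimpleGraph.sdiff_adj] at hpq
  obtain ⟨h1, h2⟩ := hpq
  rcases h1 with h1 | ⟨h1, -⟩
  · exact absurd h1 h2
  · exact h1.symm

/-- Reachable darts are at the same vertex. -/
lemma B5_reach {V : Type} {τ : V × Fin 5 → V × Fin 5} (h : DartSys τ) {p q : V × Fin 5}
    (hpq : (SG h \ MG h).Reachable p q) : q.1 = p.1 := by
  obtain ⟨w⟩ := hpq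
  induction w with
  | nil => rfl
  | cons h1 _ ih => rw [ih, B5_adj h h1]

/-- All darts at a vertex are reachable from the first one. -/
lemma B5_zero {V : Type} {τ : V × Fin 5 → V × Fin 5} (h : DartSys τ) (v : V) (i : Fin 5) :
    (SG h \ MG h).Reachable (v, 0) (v, i) := by
  have r1 : (SG h \ MG h).Reachable (v, 0) (v, 1) := (B5_step h v 0).reachable
  have r2 : (SG h \ MG h).Reachable (v, 1) (v, 2) := (B5_step h v 1).reachable
  have r3 : (SG h \ MG h).Reachable (v, 2) (v, 3) := (B5_step h v 2).reachable
  have r4 : (SG h \ MG h).Reachable (v, 3) (v, 4) := (B5_step h v 3).reachable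
  fin_cases i
  · exact SimpleGraph.Reachable.refl _
  · exact r1
  · exact r1.trans r2
  · exact (r1.trans r2).trans r3
  · exact ((r1.trans r2).trans r3).trans r4

/-- Row B5. The components of `SG h \ MG h` are the five-element sets `{v} × Fin 5`. -/
theorem comp_five {V : Type} {τ : V × Fin 5 → V × Fin 5} (h : DartSys τ)
    (c : (SG h \ MG h).ConnectedComponent) : c.supp.ncard = 5 := by
  induction c using SimpleGraph.ConnectedComponent.ind with
  | h p =>
    obtain ⟨v, i⟩ := p
    have hs : ((SG h \ MG h).connectedComponentMk (v, i)).supp =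
        Set.range (fun j : Fin 5 => (v, j)) := by
      ext q
      rw [SimpleGraph.ConnectedComponent.mem_supp_iff, SimpleGraph.ConnectedComponent.eq,
        Set.mem_range]
      constructor
      · intro h1
        have h2 := B5_reach h h1
        exact ⟨q.2, Prod.ext h2 rfl⟩
      · rintro ⟨j, rfl⟩
        exact (B5_zero h v j).symm.trans (B5_zero h v i)
    have hinj : Function.Injective (fun j : Fin 5 => (v, j)) := fun a b hab =>
      (Prod.ext_iff.1 hab).2
    rw [hs, ← Set.image_univ, Set.ncard_image_of_injective _ hinj, Set.ncard_univ,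
      Nat.card_eq_fintype_card, Fintype.card_fin]

end F5
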