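import Pool.Agent.Lib.MP_78ca69_co.F5.Defs

set_option autoImplicit false

namespace F5

open Finset

private lemma B6_ne (i : Fin 5) : i + 1 + 1 ≠ i := by
  revert i
  decide

/-- Row B6. Lower bound for cuts: the edges `s((v,i),(v,i+1))` and `s(p, τ p)` are different for
different `(v, i)` and for different `p` in `X` with `τ p ∉ X`. -/
theorem boundary_ge {V : Type} [Fintype V] [DecidableEq V] {τ : V × Fin 5 → V × Fin 5}
    (h : DartSys τ) (X : Finset (V × Fin 5)) :
    (univ.filter fun p : V × Fin 5 => ¬ (p ∈ X ↔ (p.1, p.2 + 1) ∈ X)).card +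
      (univ.filter fun p : V × Fin 5 => p ∈ X ∧ τ p ∉ X).card ≤
      (Boundary (SG h) (X : Set (V × Fin 5))).ncard := by
  set A := univ.filter fun p : V × Fin 5 => ¬ (p ∈ X ↔ (p.1, p.2 + 1) ∈ X) with hA
  set B := univ.filter fun p : V × Fin 5 => p ∈ X ∧ τ p ∉ X with hB
  let f : V × Fin 5 → Sym2 (V × Fin 5) := fun p => s(p, (p.1, p.2 + 1))
  let g : V × Fin 5 → Sym2 (V × Fin 5) := fun p => s(p, τ p)
  have hf : Set.InjOn f (A : Set (V × Fin 5)) := by
    intro p _ q _ hpq
    simp only [f] at hpq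
    rw [Sym2.eq_iff] at hpq
    rcases hpq with ⟨h1, _⟩ | ⟨h1, h2⟩
    · exact h1
    · exfalso
      have h3 : p.2 = q.2 + 1 := by rw [h1]
      have h4 : p.2 + 1 = q.2 := by rw [← h2]
      exact B6_ne q.2 (by rw [← h3]; exact h4)
  have hg : Set.InjOn g (B : Set (V × Fin 5)) := by
    intro p hp q hq hpq
    rw [Finset.mem_coe, hB, Finset.mem_filter] at hp hq
    simp only [g] at hpq
    rw [Sym2.eq_iff] at hpq
    rcases hpq with ⟨h1, _⟩ | ⟨h1, h2⟩
    · exact h1
    · exfalso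
      exact hp.2.2 (h2 ▸ hq.2.1)
  have hd : Disjoint (A.image f) (B.image g) := by
    rw [Finset.disjoint_left]
    intro e he1 he2
    rw [Finset.mem_image] at he1 he2
    obtain ⟨p, _, rfl⟩ := he1
    obtain ⟨q, _, hq⟩ := he2
    simp only [f, g] at hq
    rw [Sym2.eq_iff] at hq
    rcases hq with ⟨h1, h2⟩ | ⟨h1, h2⟩
    · apply h.ne q
      rw [h2, h1]
    · apply h.ne q
      rw [h2, h1]
  have hsub : ((A.image f ∪ B.image g : Finset (Sym2 (V × Fin 5))) : Set (Sym2 (V × Fin 5))) ⊆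
      Boundary (SG h) (X : Set (V × Fin 5)) := by
    intro e he
    rw [Finset.mem_coe, Finset.mem_union, Finset.mem_image, Finset.mem_image] at he
    rcases he with ⟨p, hp, rfl⟩ | ⟨p, hp, rfl⟩
    · rw [hA, Finset.mem_filter] at hp
      refine ⟨?_, ?_⟩
      · show s(p, (p.1, p.2 + 1)) ∈ (SG h).edgeSet
        rw [SimpleGraph.mem_edgeSet]
        exact Or.inr ⟨rfl, Or.inl rfl⟩
      · by_cases hpX : p ∈ X
        · refine ⟨p, hpX, (p.1, p.2 + 1), ?_, rfl⟩
          intro hc
          exact hp.2 ⟨fun _ => hc, fun _ => hpX⟩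
        · refine ⟨(p.1, p.2 + 1), ?_, p, hpX, Sym2.eq_swap⟩
          by_contra hc
          exact hp.2 ⟨fun h0 => absurd h0 hpX, fun h0 => absurd h0 hc⟩
    · rw [hB, Finset.mem_filter] at hp
      refine ⟨?_, p, hp.2.1, τ p, hp.2.2, rfl⟩
      show s(p, τ p) ∈ (SG h).edgeSet
      rw [SimpleGraph.mem_edgeSet]
      exact Or.inl rfl
  have hcard : A.card + B.card = (A.image f ∪ B.image g).card := by
    rw [Finset.card_union_of_disjoint hd, Finset.card_image_of_injOn hf, Finset.card_image_of_injOn hg]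
  rw [hcard, ← Set.ncard_coe_finset]
  exact Set.ncard_le_ncard hsub (Set.toFinite _)

end F5
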