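import Pool.Agent.Lib.MP_78ca69_co.F5.Defs

set_option autoImplicit false
set_option linter.unusedSectionVars false

namespace F5

open Finset

private theorem B7_two : ∀ (a : Fin 5 → Bool) (i j : Fin 5), a i = true → a j = false →
    2 ≤ (univ.filter fun k : Fin 5 => ¬ (a k = true ↔ a (k + 1) = true)).card := by
  decide

private theorem B7_consec : ∀ (a : Fin 5 → Bool),
    (univ.filter fun k : Fin 5 => ¬ (a k = true ↔ a (k + 1) = true)).card ≤ 2 →
    2 ≤ (univ.filter fun k : Fin 5 => a k = true).card →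
    ∃ k, a k = true ∧ a (k + 1) = true := by
  decide

private def B7_r {V : Type} [Fintype V] [DecidableEq V] (X : Finset (V × Fin 5)) (v : V) : ℕ :=
  (univ.filter fun i : Fin 5 => ¬ ((v, i) ∈ X ↔ (v, i + 1) ∈ X)).card

private theorem B7_sum {V : Type} [Fintype V] [DecidableEq V] (X : Finset (V × Fin 5)) :
    (univ.filter fun p : V × Fin 5 => ¬ (p ∈ X ↔ (p.1, p.2 + 1) ∈ X)).card = ∑ v, B7_r X v := by
  rw [Finset.card_filter, Fintype.sum_prod_type]
  refine Finset.sum_congr rfl fun v _ => ?_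
  rw [B7_r, Finset.card_filter]

private theorem B7_r_two {V : Type} [Fintype V] [DecidableEq V] (X : Finset (V × Fin 5)) (v : V)
    (i j : Fin 5) (hi : (v, i) ∈ X) (hj : (v, j) ∉ X) : 2 ≤ B7_r X v := by
  have := B7_two (fun k => decide ((v, k) ∈ X)) i j (by simpa using hi) (by simpa using hj)
  simpa [B7_r] using this

private theorem B7_r_consec {V : Type} [Fintype V] [DecidableEq V] (X : Finset (V × Fin 5)) (v : V)
    (hr : B7_r X v ≤ 2) (h2 : 2 ≤ (univ.filter fun k : Fin 5 => (v, k) ∈ X).card) :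
    ∃ k, (v, k) ∈ X ∧ (v, k + 1) ∈ X := by
  have := B7_consec (fun k => decide ((v, k) ∈ X)) (by simpa [B7_r] using hr)
    (by simpa using h2)
  simpa using this

/-- the split vertices -/
private def B7_T {V : Type} [Fintype V] [DecidableEq V] (X : Finset (V × Fin 5)) : Finset V :=
  univ.filter fun v => (∃ i, (v, i) ∈ X) ∧ ∃ j, (v, j) ∉ X

private theorem B7_T_sum {V : Type} [Fintype V] [DecidableEq V] (X : Finset (V × Fin 5)) :
    ∑ v ∈ B7_T X, B7_r X v ≤
      (univ.filter fun p : V × Fin 5 => ¬ (p ∈ X ↔ (p.1, p.2 + 1) ∈ X)).card := by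
  rw [B7_sum]
  exact Finset.sum_le_sum_of_subset (Finset.subset_univ _)

private theorem B7_T_two {V : Type} [Fintype V] [DecidableEq V] (X : Finset (V × Fin 5)) (v : V)
    (hv : v ∈ B7_T X) : 2 ≤ B7_r X v := by
  rw [B7_T, Finset.mem_filter] at hv
  obtain ⟨-, ⟨i, hi⟩, j, hj⟩ := hv
  exact B7_r_two X v i j hi hj

private theorem B7_T_card {V : Type} [Fintype V] [DecidableEq V] (X : Finset (V × Fin 5)) :
    2 * (B7_T X).card ≤
      (univ.filter fun p : V × Fin 5 => ¬ (p ∈ X ↔ (p.1, p.2 + 1) ∈ X)).card := by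
  refine le_trans ?_ (B7_T_sum X)
  have := Finset.card_nsmul_le_sum (B7_T X) (fun v => B7_r X v) 2 (fun v hv => B7_T_two X v hv)
  rw [smul_eq_mul] at this
  omega

private theorem B7_not_T {V : Type} [Fintype V] [DecidableEq V] (X : Finset (V × Fin 5)) (v : V)
    (hv : v ∉ B7_T X) : (∀ i, (v, i) ∈ X) ∨ ∀ i, (v, i) ∉ X := by
  rw [B7_T, Finset.mem_filter] at hv
  by_cases h : ∀ i, (v, i) ∉ X
  · exact Or.inr h
  · left
    push Not at h
    intro i
    by_contra hi
    exact hv ⟨Finset.mem_univ _, h, i, hi⟩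

/-- no cycle is contained in `X` -/
private theorem B7_small {V : Type} [Fintype V] [DecidableEq V] {τ : V × Fin 5 → V × Fin 5}
    (h : DartSys τ) (X : Finset (V × Fin 5))
    (hX : (univ.filter fun p : V × Fin 5 => ¬ (p ∈ X ↔ (p.1, p.2 + 1) ∈ X)).card +
      (univ.filter fun p : V × Fin 5 => p ∈ X ∧ τ p ∉ X).card ≤ 4)
    (hP : ∀ v, ∃ i, (v, i) ∉ X) : X.card ≤ 2 := by
  have hT := B7_T_card X
  have hmemT : ∀ p ∈ X, p.1 ∈ B7_T X := by
    intro p hp
    rw [B7_T, Finset.mem_filter]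
    exact ⟨Finset.mem_univ _, ⟨p.2, hp⟩, hP p.1⟩
  have hle2 : (B7_T X).card ≤ 2 := by omega
  rcases Nat.lt_or_ge (B7_T X).card 2 with h1 | h2
  · by_cases h0 : (B7_T X).card = 0
    · rw [Finset.card_eq_zero] at h0
      have : X = ∅ := by
        rw [Finset.eq_empty_iff_forall_notMem]
        intro p hp
        have := hmemT p hp
        rw [h0] at this
        exact absurd this (Finset.notMem_empty _)
      rw [this]; simp
    · have h1' : (B7_T X).card = 1 := by omega
      obtain ⟨v, hv⟩ := Finset.card_eq_one.mp h1'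
      have hsub : X ⊆ univ.filter fun p : V × Fin 5 => p ∈ X ∧ τ p ∉ X := by
        intro p hp
        rw [Finset.mem_filter]
        refine ⟨Finset.mem_univ _, hp, fun hq => ?_⟩
        have e1 := hmemT p hp
        have e2 := hmemT _ hq
        rw [hv, Finset.mem_singleton] at e1 e2
        exact h.ne p (e2.trans e1.symm)
      have := Finset.card_le_card hsub
      omega
  · have h2' : (B7_T X).card = 2 := by omega
    obtain ⟨v, w, hvw, hT2⟩ := Finset.card_eq_two.mp h2'
    have hs := B7_T_sum X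
    rw [hT2, Finset.sum_pair hvw] at hs
    have hrv := B7_T_two X v (by rw [hT2]; simp)
    have hrw := B7_T_two X w (by rw [hT2]; simp)
    have hc0 : (univ.filter fun p : V × Fin 5 => p ∈ X ∧ τ p ∉ X).card = 0 := by omega
    have hcl : ∀ p ∈ X, τ p ∈ X := by
      intro p hp
      by_contra hq
      rw [Finset.card_eq_zero, Finset.filter_eq_empty_iff] at hc0
      exact hc0 (Finset.mem_univ p) ⟨hp, hq⟩
    have hvw' : ∀ p ∈ X, p.1 = v ∨ p.1 = w := by
      intro p hp
      have := hmemT p hp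
      rw [hT2] at this
      simpa using this
    have key : ∀ a b : V, a ≠ b → (∀ p ∈ X, p.1 = a ∨ p.1 = b) → B7_r X a ≤ 2 →
        (univ.filter fun k : Fin 5 => (a, k) ∈ X).card ≤ 1 := by
      intro a b _ hab hr
      by_contra hc
      obtain ⟨k, hk1, hk2⟩ := B7_r_consec X a hr (by omega)
      have f : ∀ i, (a, i) ∈ X → (τ (a, i)).1 = b := by
        intro i hi
        rcases hab _ (hcl _ hi) with e | e
        · exact absurd e (h.ne (a, i))
        · exact e
      exact h.ord a k ((f k hk1).trans (f (k + 1) hk2).symm)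
    have kv := key v w hvw hvw' (by omega)
    have kw := key w v hvw.symm (fun p hp => (hvw' p hp).symm) (by omega)
    have hsub : X ⊆ (univ.filter fun k : Fin 5 => (v, k) ∈ X).image (fun k => (v, k)) ∪
        (univ.filter fun k : Fin 5 => (w, k) ∈ X).image (fun k => (w, k)) := by
      rintro ⟨a, i⟩ hp
      rw [Finset.mem_union, Finset.mem_image, Finset.mem_image]
      rcases hvw' _ hp with e | e
      · simp only at e
        subst e
        exact Or.inl ⟨i, by simpa using hp, rfl⟩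
      · simp only at e
        subst e
        exact Or.inr ⟨i, by simpa using hp, rfl⟩
    have c1 := Finset.card_le_card hsub
    have c2 := Finset.card_union_le ((univ.filter fun k : Fin 5 => (v, k) ∈ X).image (fun k => (v, k)))
        ((univ.filter fun k : Fin 5 => (w, k) ∈ X).image (fun k => (w, k)))
    have c3 : ((univ.filter fun k : Fin 5 => (v, k) ∈ X).image (fun k => (v, k))).card ≤ _ :=
      Finset.card_image_le
    have c4 : ((univ.filter fun k : Fin 5 => (w, k) ∈ X).image (fun k => (w, k))).card ≤ _ :=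
      Finset.card_image_le
    omega

private theorem B7_compl1 {V : Type} [Fintype V] [DecidableEq V] (X : Finset (V × Fin 5)) :
    (univ.filter fun p : V × Fin 5 => ¬ (p ∈ Xᶜ ↔ (p.1, p.2 + 1) ∈ Xᶜ)) =
      univ.filter fun p : V × Fin 5 => ¬ (p ∈ X ↔ (p.1, p.2 + 1) ∈ X) := by
  refine Finset.filter_congr fun p _ => ?_
  rw [Finset.mem_compl, Finset.mem_compl]
  tauto

private theorem B7_compl2 {V : Type} [Fintype V] [DecidableEq V] {τ : V × Fin 5 → V × Fin 5}
    (h : DartSys τ) (X : Finset (V × Fin 5)) :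
    (univ.filter fun p : V × Fin 5 => p ∈ Xᶜ ∧ τ p ∉ Xᶜ).card =
      (univ.filter fun p : V × Fin 5 => p ∈ X ∧ τ p ∉ X).card := by
  refine Finset.card_bij' (fun p _ => τ p) (fun p _ => τ p) ?_ ?_ ?_ ?_
  · intro p hp
    simp only [Finset.mem_filter, Finset.mem_univ, true_and, Finset.mem_compl, not_not] at hp ⊢
    rw [h.inv]
    exact ⟨hp.2, hp.1⟩
  · intro p hp
    simp only [Finset.mem_filter, Finset.mem_univ, true_and, Finset.mem_compl, not_not] at hp ⊢
    rw [h.inv]
    exact ⟨hp.2, hp.1⟩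
  · intro p _; exact h.inv p
  · intro p _; exact h.inv p

private theorem B7_one {V : Type} [DecidableEq V] {τ : V × Fin 5 → V × Fin 5}
    (hmult : ∀ v w : V, (univ.filter fun i : Fin 5 => (τ (v, i)).1 = w).card ≤ 2)
    (x v w : V) (hx : ∀ i, (τ (x, i)).1 = v ∨ (τ (x, i)).1 = w) : False := by
  have h1 := hmult x v
  have h2 := hmult x w
  have h3 : (univ : Finset (Fin 5)) ⊆ (univ.filter fun i : Fin 5 => (τ (x, i)).1 = v) ∪
      (univ.filter fun i : Fin 5 => (τ (x, i)).1 = w) := by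
    intro i _
    rw [Finset.mem_union, Finset.mem_filter, Finset.mem_filter]
    rcases hx i with e | e
    · exact Or.inl ⟨Finset.mem_univ _, e⟩
    · exact Or.inr ⟨Finset.mem_univ _, e⟩
  have h4 := Finset.card_le_card h3
  have h5 := Finset.card_union_le (univ.filter fun i : Fin 5 => (τ (x, i)).1 = v)
    (univ.filter fun i : Fin 5 => (τ (x, i)).1 = w)
  rw [Finset.card_univ, Fintype.card_fin] at h4
  omega

/-- darts from `P` to the vertex `v` -/
private theorem B7_to {V : Type} [Fintype V] [DecidableEq V] {τ : V × Fin 5 → V × Fin 5}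
    (h : DartSys τ) (P : Finset V) (v : V) :
    (univ.filter fun p : V × Fin 5 => p.1 ∈ P ∧ (τ p).1 = v).card ≤
      (univ.filter fun i : Fin 5 => (τ (v, i)).1 ∈ P).card := by
  refine Finset.card_le_card_of_injOn (fun p => (τ p).2) ?_ ?_
  · intro p hp
    simp only [Finset.coe_filter, Finset.mem_univ, true_and, Set.mem_setOf_eq] at hp ⊢
    have : (v, (τ p).2) = τ p := by rw [← hp.2]
    rw [this, h.inv]
    exact hp.1
  · intro p hp q hq hpq
    simp only [Finset.coe_filter, Finset.mem_univ, true_and, Set.mem_setOf_eq] at hp hq hpq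
    have : τ p = τ q := Prod.ext (hp.2.trans hq.2.symm) hpq
    rw [← h.inv p, this, h.inv]

/-- some cycle is contained in `X` and some cycle in the complement: impossible -/
private theorem B7_both {V : Type} [Fintype V] [DecidableEq V] {τ : V × Fin 5 → V × Fin 5}
    (h : DartSys τ)
    (hcut : ∀ P : Finset V, P.Nonempty → P ≠ univ →
      5 ≤ (univ.filter fun p : V × Fin 5 => p.1 ∈ P ∧ (τ p).1 ∉ P).card)
    (hmult : ∀ v w : V, (univ.filter fun i : Fin 5 => (τ (v, i)).1 = w).card ≤ 2)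
    (hsep : ∀ v w : V, v ≠ w → ∀ P Q : Finset V, Disjoint P Q → v ∉ P → w ∉ P → v ∉ Q → w ∉ Q →
      (∀ x, x ∈ P ∨ x ∈ Q ∨ x = v ∨ x = w) → (∀ p : V × Fin 5, p.1 ∈ P → (τ p).1 ∉ Q) →
      P.card ≤ 1 ∨ Q.card ≤ 1)
    (X : Finset (V × Fin 5))
    (hX : (univ.filter fun p : V × Fin 5 => ¬ (p ∈ X ↔ (p.1, p.2 + 1) ∈ X)).card +
      (univ.filter fun p : V × Fin 5 => p ∈ X ∧ τ p ∉ X).card ≤ 4)
    (a : V) (ha : ∀ i, (a, i) ∈ X) (b : V) (hb : ∀ i, (b, i) ∉ X) : False := by
  classical
  have hT := B7_T_card X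
  set P : Finset V := univ.filter fun v => ∀ i, (v, i) ∈ X with hPdef
  set Q : Finset V := univ.filter fun v => ∀ i, (v, i) ∉ X with hQdef
  have mP : ∀ v, v ∈ P ↔ ∀ i, (v, i) ∈ X := fun v => by simp [hPdef]
  have mQ : ∀ v, v ∈ Q ↔ ∀ i, (v, i) ∉ X := fun v => by simp [hQdef]
  have hPne : P.Nonempty := ⟨a, (mP a).2 ha⟩
  have hQne : Q.Nonempty := ⟨b, (mQ b).2 hb⟩
  have hPQ : ∀ v, v ∈ P → v ∉ Q := fun v h1 h2 => (mQ v).1 h2 0 ((mP v).1 h1 0)
  have hPun : P ≠ univ := fun e => hPQ b (by rw [e]; simp) ((mQ b).2 hb)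
  have hQun : Q ≠ univ := fun e => hPQ a ((mP a).2 ha) (by rw [e]; simp)
  have hcov : ∀ v, v ∈ P ∨ v ∈ Q ∨ v ∈ B7_T X := by
    intro v
    by_cases hv : v ∈ B7_T X
    · exact Or.inr (Or.inr hv)
    · rcases B7_not_T X v hv with e | e
      · exact Or.inl ((mP v).2 e)
      · exact Or.inr (Or.inl ((mQ v).2 e))
  have hTP : ∀ v ∈ B7_T X, v ∉ P ∧ v ∉ Q := by
    intro v hv
    rw [B7_T, Finset.mem_filter] at hv
    obtain ⟨-, ⟨i, hi⟩, j, hj⟩ := hv
    exact ⟨fun e => hj ((mP v).1 e j), fun e => (mQ v).1 e i hi⟩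
  have cP := hcut P hPne hPun
  have cQ := hcut Q hQne hQun
  -- darts from P to Q
  have hPQc : (univ.filter fun p : V × Fin 5 => p.1 ∈ P ∧ (τ p).1 ∈ Q).card ≤
      (univ.filter fun p : V × Fin 5 => p ∈ X ∧ τ p ∉ X).card := by
    refine Finset.card_le_card ?_
    intro p hp
    simp only [Finset.mem_filter, Finset.mem_univ, true_and] at hp ⊢
    exact ⟨(mP p.1).1 hp.1 p.2, (mQ (τ p).1).1 hp.2 (τ p).2⟩
  have hQPc : (univ.filter fun p : V × Fin 5 => p.1 ∈ Q ∧ (τ p).1 ∈ P).card ≤
      (univ.filter fun p : V × Fin 5 => p.1 ∈ P ∧ (τ p).1 ∈ Q).card := by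
    refine Finset.card_le_card_of_injOn τ ?_ ?_
    · intro p hp
      simp only [Finset.coe_filter, Finset.mem_univ, true_and, Set.mem_setOf_eq] at hp ⊢
      rw [h.inv]
      exact ⟨hp.2, hp.1⟩
    · intro p _ q _ hpq
      rw [← h.inv p, hpq, h.inv]
  rcases Nat.lt_or_ge (B7_T X).card 2 with h1 | h2
  · by_cases h0 : (B7_T X).card = 0
    · rw [Finset.card_eq_zero] at h0
      have : (univ.filter fun p : V × Fin 5 => p.1 ∈ P ∧ (τ p).1 ∉ P) ⊆
          (univ.filter fun p : V × Fin 5 => p.1 ∈ P ∧ (τ p).1 ∈ Q) := by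
        intro p hp
        simp only [Finset.mem_filter, Finset.mem_univ, true_and] at hp ⊢
        refine ⟨hp.1, ?_⟩
        rcases hcov (τ p).1 with e | e | e
        · exact absurd e hp.2
        · exact e
        · rw [h0] at e; exact absurd e (Finset.notMem_empty _)
      have := Finset.card_le_card this
      omega
    · have h1' : (B7_T X).card = 1 := by omega
      obtain ⟨v, hv⟩ := Finset.card_eq_one.mp h1'
      have hv' : ∀ x, x ∈ P ∨ x ∈ Q ∨ x = v := by
        intro x
        have := hcov x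
        rw [hv, Finset.mem_singleton] at this
        exact this
      have s1 : (univ.filter fun p : V × Fin 5 => p.1 ∈ P ∧ (τ p).1 ∉ P) ⊆
          (univ.filter fun p : V × Fin 5 => p.1 ∈ P ∧ (τ p).1 ∈ Q) ∪
          (univ.filter fun p : V × Fin 5 => p.1 ∈ P ∧ (τ p).1 = v) := by
        intro p hp
        simp only [Finset.mem_filter, Finset.mem_univ, true_and, Finset.mem_union] at hp ⊢
        rcases hv' (τ p).1 with e | e | e
        · exact absurd e hp.2
        · exact Or.inl ⟨hp.1, e⟩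
        · exact Or.inr ⟨hp.1, e⟩
      have s2 : (univ.filter fun p : V × Fin 5 => p.1 ∈ Q ∧ (τ p).1 ∉ Q) ⊆
          (univ.filter fun p : V × Fin 5 => p.1 ∈ Q ∧ (τ p).1 ∈ P) ∪
          (univ.filter fun p : V × Fin 5 => p.1 ∈ Q ∧ (τ p).1 = v) := by
        intro p hp
        simp only [Finset.mem_filter, Finset.mem_univ, true_and, Finset.mem_union] at hp ⊢
        rcases hv' (τ p).1 with e | e | e
        · exact Or.inl ⟨hp.1, e⟩
        · exact absurd e hp.2
        · exact Or.inr ⟨hp.1, e⟩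
      have t1 := (Finset.card_le_card s1).trans (Finset.card_union_le _ _)
      have t2 := (Finset.card_le_card s2).trans (Finset.card_union_le _ _)
      have u1 := B7_to h P v
      have u2 := B7_to h Q v
      have u3 : (univ.filter fun i : Fin 5 => (τ (v, i)).1 ∈ P).card +
          (univ.filter fun i : Fin 5 => (τ (v, i)).1 ∈ Q).card ≤ 5 := by
        rw [← Finset.card_union_of_disjoint]
        · refine (Finset.card_le_univ _).trans ?_
          simp
        · rw [Finset.disjoint_filter]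
          intro i _ hi
          exact hPQ _ hi
      omega
  · have h2' : (B7_T X).card = 2 := by omega
    obtain ⟨v, w, hvw, hT2⟩ := Finset.card_eq_two.mp h2'
    have hc0 : (univ.filter fun p : V × Fin 5 => p ∈ X ∧ τ p ∉ X).card = 0 := by omega
    have hPQ0 : ∀ p : V × Fin 5, p.1 ∈ P → (τ p).1 ∉ Q := by
      intro p hp hq
      rw [Finset.card_eq_zero, Finset.filter_eq_empty_iff] at hc0
      exact hc0 (Finset.mem_univ p) ⟨(mP p.1).1 hp p.2, (mQ (τ p).1).1 hq (τ p).2⟩
    have hcov' : ∀ x, x ∈ P ∨ x ∈ Q ∨ x = v ∨ x = w := by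
      intro x
      have := hcov x
      rw [hT2] at this
      simpa using this
    have hvT := hTP v (by rw [hT2]; simp)
    have hwT := hTP w (by rw [hT2]; simp)
    have hdis : Disjoint P Q := by
      rw [Finset.disjoint_left]
      exact fun x hx => hPQ x hx
    rcases hsep v w hvw P Q hdis hvT.1 hwT.1 hvT.2 hwT.2 hcov' hPQ0 with hc | hc
    · have hP1 : ∀ x ∈ P, x = a := fun x hx =>
        Finset.card_le_one.mp hc x hx a ((mP a).2 ha)
      refine B7_one hmult a v w fun i => ?_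
      rcases hcov' (τ (a, i)).1 with e | e | e | e
      · exact absurd (hP1 _ e) (h.ne (a, i))
      · exact absurd e (hPQ0 (a, i) ((mP a).2 ha))
      · exact Or.inl e
      · exact Or.inr e
    · have hQ1 : ∀ x ∈ Q, x = b := fun x hx =>
        Finset.card_le_one.mp hc x hx b ((mQ b).2 hb)
      refine B7_one hmult b v w fun i => ?_
      rcases hcov' (τ (b, i)).1 with e | e | e | e
      · exact absurd ((mQ b).2 hb) (by have := hPQ0 (τ (b, i)) e; rwa [h.inv] at this)
      · exact absurd (hQ1 _ e) (h.ne (b, i))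
      · exact Or.inl e
      · exact Or.inr e

/-- Row B7. Key lemma: sets of darts left by at most four edges are trivial. See the README for the
proof (cases by the number of 5-cycles that are cut). -/
theorem key {V : Type} [Fintype V] [DecidableEq V] {τ : V × Fin 5 → V × Fin 5} (h : DartSys τ)
    (hcut : ∀ P : Finset V, P.Nonempty → P ≠ univ →
      5 ≤ (univ.filter fun p : V × Fin 5 => p.1 ∈ P ∧ (τ p).1 ∉ P).card)
    (hmult : ∀ v w : V, (univ.filter fun i : Fin 5 => (τ (v, i)).1 = w).card ≤ 2)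
    (hsep : ∀ v w : V, v ≠ w → ∀ P Q : Finset V, Disjoint P Q → v ∉ P → w ∉ P → v ∉ Q → w ∉ Q →
      (∀ x, x ∈ P ∨ x ∈ Q ∨ x = v ∨ x = w) → (∀ p : V × Fin 5, p.1 ∈ P → (τ p).1 ∉ Q) →
      P.card ≤ 1 ∨ Q.card ≤ 1)
    (X : Finset (V × Fin 5))
    (hX : (univ.filter fun p : V × Fin 5 => ¬ (p ∈ X ↔ (p.1, p.2 + 1) ∈ X)).card +
      (univ.filter fun p : V × Fin 5 => p ∈ X ∧ τ p ∉ X).card ≤ 4) :
    X.card ≤ 2 ∨ Xᶜ.card ≤ 2 := by
  by_cases hP : ∀ v, ∃ i, (v, i) ∉ X
  · exact Or.inl (B7_small h X hX hP)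
  · by_cases hQ : ∀ v, ∃ i, (v, i) ∉ Xᶜ
    · refine Or.inr (B7_small h Xᶜ ?_ hQ)
      rw [B7_compl1, B7_compl2 h]
      exact hX
    · exfalso
      push Not at hP hQ
      obtain ⟨a, ha⟩ := hP
      obtain ⟨b, hb⟩ := hQ
      exact B7_both h hcut hmult hsep X hX a ha b (fun i => by simpa using hb i)

end F5
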