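import Pool.Agent.Lib.MP_78ca69_co.F5.Defs

set_option autoImplicit false

namespace F5

open Finset

/-- Row B8. Cuts of the multigraph in terms of darts: `p ↦ d p` is a bijection from the darts
that leave `P` to the edges that leave `P`. -/
theorem cut_darts {V E : Type} [Fintype V] [DecidableEq V] [Fintype E] [DecidableEq E]
    (ends : E → Sym2 V) (τ : V × Fin 5 → V × Fin 5) (d : V × Fin 5 → E) (h : DartSys τ)
    (h1 : ∀ p, ends (d p) = s(p.1, (τ p).1)) (h2 : ∀ p q, d p = d q ↔ (q = p ∨ q = τ p))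
    (h3 : ∀ e, ∃ p, d p = e) (P : Finset V) :
    (univ.filter fun p : V × Fin 5 => p.1 ∈ P ∧ (τ p).1 ∉ P).card =
      (univ.filter fun e => ∃ u ∈ P, ∃ v ∉ P, ends e = s(u, v)).card := by
  refine Finset.card_bij (fun p _ => d p) ?_ ?_ ?_
  · intro p hp
    rw [mem_filter] at hp ⊢
    exact ⟨mem_univ _, p.1, hp.2.1, (τ p).1, hp.2.2, h1 p⟩
  · intro p hp q hq hpq
    rw [mem_filter] at hp hq
    rcases (h2 p q).mp hpq with h4 | h4
    · exact h4.symm
    · exact absurd (h4 ▸ hq.2.1) hp.2.2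
  · intro e he
    rw [mem_filter] at he
    obtain ⟨_, u, hu, v, hv, huv⟩ := he
    obtain ⟨p, rfl⟩ := h3 e
    rw [h1 p, Sym2.eq_iff] at huv
    rcases huv with ⟨h4, h5⟩ | ⟨h4, h5⟩
    · refine ⟨p, ?_, rfl⟩
      rw [mem_filter]
      exact ⟨mem_univ _, by rw [h4]; exact hu, by rw [h5]; exact hv⟩
    · refine ⟨τ p, ?_, ?_⟩
      · rw [mem_filter, h.inv p]
        exact ⟨mem_univ _, by rw [h5]; exact hu, by rw [h4]; exact hv⟩
      · exact ((h2 p (τ p)).mpr (Or.inr rfl)).symm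

end F5
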