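import Pool.Agent.Lib.MP_78ca69_co.F5.Defs

/-!
# Row B9: a Fulkerson cover gives a 5-edge-colouring
-/

set_option autoImplicit false

namespace F5

open Finset

/-- no alternating pattern on a 5-cycle -/
theorem B9_odd : ∀ b : Fin 5 → Bool, ¬ ∀ i, b (i + 1) ≠ b i := by decide

theorem B9_two : ∀ i : Fin 5, i ≠ i + 1 + 1 := by decide

/-- Row B9. A Fulkerson cover of `SG h` that contains `MG h` gives a proper 5-edge-colouring of the
multigraph. `c p = k` (`k : Fin 5`) if the edge `p - τ p` is in `N (k + 1)`: it is in exactly two of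
the six matchings, one of them is `N 0 = MG h`. For every `v` and every `k ≠ 0` the matching `N k`
has an odd number of edges `p - τ p` with `p.1 = v`, because the other vertices of the 5-cycle of
`v` are matched in pairs inside this 5-cycle; so there is at least one; these are five edges in all
and each is in exactly one `N k`, `k ≠ 0`; so the five edges at `v` have different colours. -/
theorem colouring_of_cover {V : Type} [Finite V] {τ : V × Fin 5 → V × Fin 5} (h : DartSys τ)
    (hN : InFulkersonCover (SG h) (MG h)) :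
    ∃ c : V × Fin 5 → Fin 5, (∀ p, c (τ p) = c p) ∧ ∀ v i j, i ≠ j → c (v, i) ≠ c (v, j) := by
  classical
  obtain ⟨N, hPM, h0, h2⟩ := hN
  have hadj : ∀ p, (SG h).Adj p (τ p) := fun p => Or.inl rfl
  have hex : ∀ p, ∃ k : Fin 5, ∀ j : Fin 5, (N j.succ).Adj p (τ p) ↔ j = k := by
    intro p
    have h3 := h2 p (τ p) (hadj p)
    rw [Set.ncard_eq_two] at h3
    obtain ⟨a, b, hab, hs⟩ := h3
    have hmem : ∀ i, (N i).Adj p (τ p) ↔ i = a ∨ i = b := by
      intro i
      have h4 := Set.ext_iff.1 hs i
      simpa using h4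
    have hz : (N 0).Adj p (τ p) := by
      rw [h0]
      exact rfl
    have key : ∀ b : Fin 6, b ≠ 0 → (∀ i, (N i).Adj p (τ p) ↔ i = 0 ∨ i = b) →
        ∃ k : Fin 5, ∀ j : Fin 5, (N j.succ).Adj p (τ p) ↔ j = k := by
      intro b hb hm
      obtain ⟨k, rfl⟩ := Fin.exists_succ_eq.2 hb
      refine ⟨k, fun j => ?_⟩
      rw [hm]
      constructor
      · rintro (h4 | h4)
        · exact absurd h4 (Fin.succ_ne_zero j)
        · exact Fin.succ_injective _ h4
      · rintro rfl
        exact Or.inr rfl
    rcases (hmem 0).1 hz with h4 | h4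
    · subst h4
      exact key b (Ne.symm hab) hmem
    · subst h4
      exact key a hab fun i => (hmem i).trans or_comm
  choose c hc using hex
  have hpar : ∀ (v : V) (k : Fin 5), ∃ i, (N k.succ).Adj (v, i) (τ (v, i)) := by
    intro v k
    by_contra hcon
    push Not at hcon
    obtain ⟨hle, hu⟩ := hPM k.succ
    apply B9_odd (fun i => decide ((N k.succ).Adj (v, i) (v, i + 1)))
    intro i
    obtain ⟨w, hw, hwu⟩ := hu (v, i + 1)
    have hs : w = τ (v, i + 1) ∨ (v = w.1 ∧ (w.2 = i + 1 + 1 ∨ i + 1 = w.2 + 1)) := hle hw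
    rcases hs with hs | ⟨h5, h6 | h6⟩
    · subst hs
      exact absurd hw (hcon (i + 1))
    · have hw' : w = (v, i + 1 + 1) := Prod.ext h5.symm h6
      subst hw'
      have hn : ¬ (N k.succ).Adj (v, i) (v, i + 1) := by
        intro hh
        have h7 := hwu _ hh.symm
        exact B9_two i (congrArg Prod.snd h7)
      simp only [decide_eq_true hw, decide_eq_false hn]
      decide
    · have hw' : w = (v, i) := Prod.ext h5.symm (add_right_cancel h6).symm
      subst hw'
      have hn : ¬ (N k.succ).Adj (v, i + 1) (v, i + 1 + 1) := by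
        intro hh
        have h7 := hwu _ hh
        exact B9_two i (congrArg Prod.snd h7).symm
      simp only [decide_eq_true hw.symm, decide_eq_false hn]
      decide
  refine ⟨c, ?_, ?_⟩
  · intro p
    have h3 : (N (c p).succ).Adj p (τ p) := (hc p (c p)).2 rfl
    have h4 : (N (c p).succ).Adj (τ p) (τ (τ p)) := by
      rw [h.inv]
      exact h3.symm
    exact ((hc (τ p) (c p)).1 h4).symm
  · intro v
    have hsurj : Function.Surjective fun i => c (v, i) := by
      intro k
      obtain ⟨i, hi⟩ := hpar v k
      exact ⟨i, ((hc (v, i) k).1 hi).symm⟩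
    have hinj : Function.Injective fun i => c (v, i) := Finite.injective_iff_surjective.2 hsurj
    intro i j hij hcc
    exact hij (hinj hcc)

end F5
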