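import Mathlib

/-!
# Fulkerson covers and 5-edge-connected 5-regular graphs: the notions used in the statement
-/

set_option autoImplicit false

namespace F5

/-- The multigraph with vertex set `V`, edge set `E` and ends `ends` is loopless, `r`-regular and
`r`-edge-connected (every non-empty proper set of vertices is left by at least `r` edges). -/
def RegularConnected {V E : Type} (ends : E → Sym2 V) (r : ℕ) : Prop :=
  (∀ e, ¬ (ends e).IsDiag) ∧ (∀ v : V, {e | v ∈ ends e}.ncard = r) ∧
    ∀ X : Set V, X.Nonempty → X ≠ Set.univ →
      r ≤ {e | ∃ u ∈ X, ∃ v ∉ X, ends e = s(u, v)}.ncard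

/-- The edges can be coloured with `r` colours so that different edges with a common end get
different colours. -/
def Colourable {V E : Type} (ends : E → Sym2 V) (r : ℕ) : Prop :=
  ∃ c : E → Fin r, ∀ e f, e ≠ f → (∃ v, v ∈ ends e ∧ v ∈ ends f) → c e ≠ c f

/-- Every vertex has exactly three neighbours. -/
def Cubic {V : Type} (S : SimpleGraph V) : Prop := ∀ v, (S.neighborSet v).ncard = 3

/-- The set of edges of `S` with exactly one end in `X`. -/
def Boundary {V : Type} (S : SimpleGraph V) (X : Set V) : Set (Sym2 V) :=
  {e | e ∈ S.edgeSet ∧ ∃ u ∈ X, ∃ v ∉ X, e = s(u, v)}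

/-- `S` is cyclically 5-edge-connected: every set `X` of vertices such that both `X` and its
complement contain a cycle of `S` is left by at least five edges. -/
def CyclicallyFive {V : Type} (S : SimpleGraph V) : Prop :=
  ∀ X : Set V, ¬ (S.induce X).IsAcyclic → ¬ (S.induce Xᶜ).IsAcyclic → 5 ≤ (Boundary S X).ncard

/-- `M` (given as a spanning subgraph) is a perfect matching of `S`. -/
def PerfectMatching {V : Type} (S M : SimpleGraph V) : Prop := M ≤ S ∧ ∀ v, ∃! w, M.Adj v w

/-- `M` is one of six perfect matchings of `S` (repetitions allowed) that cover every edge of `S`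
exactly twice. -/
def InFulkersonCover {V : Type} (S M : SimpleGraph V) : Prop :=
  ∃ N : Fin 6 → SimpleGraph V, (∀ i, PerfectMatching S (N i)) ∧ N 0 = M ∧
    ∀ u v, S.Adj u v → {i | (N i).Adj u v}.ncard = 2

end F5
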