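import Pool.Agent.Lib.MP_78ca69_co.F5.Base

/-!
# Fulkerson covers and 5-edge-connected 5-regular graphs: definitions
-/

set_option autoImplicit false

namespace F5

/-- `r`-regular and `r`-edge-connected, no loops (finite-set form) -/
structure Reg (V E : Type) [Fintype V] [DecidableEq V] [Fintype E] (ends : E → Sym2 V)
    (r : ℕ) : Prop where
  loop : ∀ e, ¬ (ends e).IsDiag
  deg : ∀ v, (Finset.univ.filter fun e => v ∈ ends e).card = r
  cut : ∀ X : Finset V, X.Nonempty → X ≠ Finset.univ →
    r ≤ (Finset.univ.filter fun e => ∃ u ∈ X, ∃ v ∉ X, ends e = s(u, v)).card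

/-! ### The graph `2 S - M` -/

/-- edges of `2 S - M`: an edge of `M` has one copy, every other edge of `S` has two copies -/
def DE {V : Type} (S M : SimpleGraph V) : Type :=
  {q : Sym2 V × Bool // q.1 ∈ S.edgeSet ∧ (q.2 = true → q.1 ∉ M.edgeSet)}

/-- ends of the edges of `2 S - M` -/
def dends {V : Type} (S M : SimpleGraph V) (q : DE S M) : Sym2 V := q.1.1

instance {V : Type} [Finite V] (S M : SimpleGraph V) : Finite (DE S M) :=
  inferInstanceAs (Finite {q : Sym2 V × Bool // q.1 ∈ S.edgeSet ∧ (q.2 = true → q.1 ∉ M.edgeSet)})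

/-! ### Replacing the vertices of a 5-regular graph by 5-cycles -/

/-- `V × Fin 5` is the set of darts: `(v, i)` is the `i`-th edge at `v` in a cyclic order of the five
edges at `v`, `τ p` is the same edge seen from its other end. -/
structure DartSys {V : Type} (τ : V × Fin 5 → V × Fin 5) : Prop where
  inv : ∀ p, τ (τ p) = p
  ne : ∀ p, (τ p).1 ≠ p.1
  ord : ∀ v i, (τ (v, i)).1 ≠ (τ (v, i + 1)).1

/-- the perfect matching (original edges) -/
def MG {V : Type} {τ : V × Fin 5 → V × Fin 5} (h : DartSys τ) : SimpleGraph (V × Fin 5) where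
  Adj p q := q = τ p
  symm := ⟨fun p q hpq => by subst hpq; exact (h.inv p).symm⟩
  loopless := ⟨fun p hp => h.ne p (by rw [← hp])⟩

/-- the cubic graph: original edges and one 5-cycle for each vertex -/
def SG {V : Type} {τ : V × Fin 5 → V × Fin 5} (h : DartSys τ) : SimpleGraph (V × Fin 5) where
  Adj p q := q = τ p ∨ (p.1 = q.1 ∧ (q.2 = p.2 + 1 ∨ p.2 = q.2 + 1))
  symm := ⟨fun p q hpq => by
    rcases hpq with hpq | ⟨h1, h2⟩
    · left; subst hpq; exact (h.inv p).symm
    · right; exact ⟨h1.symm, h2.symm⟩⟩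
  loopless := ⟨fun p hp => by
    rcases hp with hp | ⟨_, h2⟩
    · exact h.ne p (by rw [← hp])
    · rcases h2 with h2 | h2 <;> · revert h2; generalize p.2 = i; revert i; decide⟩

end F5
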