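import Pool.Agent.Lib.MP_78ca69_co.F5.A1
import Pool.Agent.Lib.MP_78ca69_co.F5.A2
import Pool.Agent.Lib.MP_78ca69_co.F5.A3
import Pool.Agent.Lib.MP_78ca69_co.F5.A4
import Pool.Agent.Lib.MP_78ca69_co.F5.A5
import Pool.Agent.Lib.MP_78ca69_co.F5.B2
import Pool.Agent.Lib.MP_78ca69_co.F5.B3
import Pool.Agent.Lib.MP_78ca69_co.F5.B4
import Pool.Agent.Lib.MP_78ca69_co.F5.B5
import Pool.Agent.Lib.MP_78ca69_co.F5.B6
import Pool.Agent.Lib.MP_78ca69_co.F5.B7
import Pool.Agent.Lib.MP_78ca69_co.F5.B8
import Pool.Agent.Lib.MP_78ca69_co.F5.B9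
import Pool.Agent.Lib.MP_78ca69_co.F5.B10
import Pool.Agent.Lib.MP_78ca69_co.R3.Min

/-!
# Fulkerson covers: assembly
-/

set_option autoImplicit false

namespace F5

open Finset

theorem min_counterexample
    (hex : ∃ (V E : Type) (ends : E → Sym2 V), Finite V ∧ Finite E ∧ RegularConnected ends 5 ∧
      ¬ Colourable ends 5) :
    ∃ (V E : Type) (_ : Fintype V) (_ : DecidableEq V) (_ : Fintype E) (_ : DecidableEq E)
      (ends : E → Sym2 V), Reg V E ends 5 ∧ ¬ Colourable ends 5 ∧
      ∀ A B C : Finset V, A ∪ B ∪ C = univ → Disjoint A B → Disjoint A C → Disjoint B C →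
        B.card ≤ 3 → (∀ e, ∀ x ∈ A, ∀ y ∈ C, ends e ≠ s(x, y)) → A.card ≤ 1 ∨ C.card ≤ 1 := by
  classical
  let P : ℕ → Prop := fun n => ∃ (V E : Type) (ends : E → Sym2 V), Finite V ∧ Finite E ∧
    RegularConnected ends 5 ∧ ¬ Colourable ends 5 ∧ Nat.card V = n
  have hP : ∃ n, P n := by
    obtain ⟨V, E, ends, h1, h2, h3, h4⟩ := hex
    exact ⟨_, V, E, ends, h1, h2, h3, h4, rfl⟩
  obtain ⟨V, E, ends, h1, h2, h3, h4, h5⟩ := Nat.find_spec hP
  have hmin : ∀ n, P n → Nat.card V ≤ n := fun n hn => by rw [h5]; exact Nat.find_min' hP hn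
  have := Fintype.ofFinite V
  have := Fintype.ofFinite E
  have hreg : Reg V E ends 5 := by
    refine ⟨h3.1, ?_, ?_⟩
    · intro v
      rw [← h3.2.1 v, Set.ncard_eq_toFinset_card']
      congr 1
      ext e
      simp
    · intro X hX0 hX1
      have := h3.2.2 (X : Set V) (Finset.coe_nonempty.2 hX0)
        (fun h => hX1 (by rw [← Finset.coe_univ] at h; exact Finset.coe_injective h))
      rw [Set.ncard_eq_toFinset_card'] at this
      refine this.trans (le_of_eq ?_)
      congr 1
      ext e
      simp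
  refine ⟨V, E, inferInstance, inferInstance, inferInstance, inferInstance, ends, hreg, h4, ?_⟩
  intro A B C hun hAB hAC hBC hB hno
  by_contra hcon
  push Not at hcon
  obtain ⟨hA, hC⟩ := hcon
  apply h4
  refine RG3.min_sep ends 5 (by decide) (by decide) ⟨hreg.loop, hreg.deg, hreg.cut⟩ ?_ A B C hun hAB
    hAC hBC hB hA hC hno
  intro V' E' _ _ _ _ ends' hlt hreg'
  by_contra hcol
  have h1 := hmin (Nat.card V') ⟨V', E', ends', inferInstance, inferInstance, ?_, hcol, rfl⟩
  · rw [Nat.card_eq_fintype_card, Nat.card_eq_fintype_card] at h1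
    omega
  · refine ⟨hreg'.loop, ?_, ?_⟩
    · intro v
      rw [← hreg'.deg v, Set.ncard_eq_toFinset_card']
      congr 1
      ext e
      simp
    · intro X hX0 hX1
      have := hreg'.cut X.toFinset (by simpa using hX0) (by simpa using hX1)
      rw [Set.ncard_eq_toFinset_card']
      refine this.trans (le_of_eq ?_)
      congr 1
      ext e
      simp

/-- `2 S - M` is 5-regular and 5-edge-connected if `S` is cyclically 5-edge-connected. -/
theorem dbl_regularConnected {V : Type} [Finite V] {S M : SimpleGraph V} (hS : Cubic S)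
    (hM : PerfectMatching S M) (hC : CyclicallyFive S) : RegularConnected (dends S M) 5 := by
  classical
  refine ⟨?_, dbl_deg hS hM, ?_⟩
  · intro q
    exact S.not_isDiag_of_mem_edgeSet q.2.1
  · intro X hX0 hX1
    rw [dbl_cut X]
    have hfin : (Boundary S X).Finite := Set.toFinite _
    have hadd : (Boundary S X \ M.edgeSet).ncard + (Boundary S X ∩ M.edgeSet).ncard =
        (Boundary S X).ncard := by
      rw [add_comm]; exact Set.ncard_inter_add_ncard_sdiff_eq_ncard _ _ hfin
    have hXc : Boundary S Xᶜ = Boundary S X := by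
      ext e
      simp only [Boundary, Set.mem_ofPred_eq, Set.mem_compl_iff, not_not]
      constructor
      · rintro ⟨h1, u, hu, v, hv, h2⟩; exact ⟨h1, v, hv, u, hu, by rw [h2, Sym2.eq_swap]⟩
      · rintro ⟨h1, u, hu, v, hv, h2⟩; exact ⟨h1, v, hv, u, hu, by rw [h2, Sym2.eq_swap]⟩
    by_cases h1 : (S.induce X).IsAcyclic
    · have h2 := forest_boundary hS X hX0 h1
      have h3 := match_cut hM X
      have h4 : 0 < X.ncard := (Set.ncard_pos (Set.toFinite _)).2 hX0
      omega
    · by_cases h2 : (S.induce Xᶜ).IsAcyclic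
      · have hne : Xᶜ.Nonempty := by
          rw [Set.nonempty_compl]; exact hX1
        have h3 := forest_boundary hS Xᶜ hne h2
        have h4 := match_cut hM Xᶜ
        have h5 : 0 < Xᶜ.ncard := (Set.ncard_pos (Set.toFinite _)).2 hne
        rw [hXc] at h3 h4
        omega
      · have := hC X h1 h2
        omega

theorem small_acyclic {W : Type} [Fintype W] [DecidableEq W] (S : SimpleGraph W) (X : Finset W)
    (h : X.card ≤ 2) : (S.induce (X : Set W)).IsAcyclic := by
  apply SimpleGraph.IsAcyclic.of_card_le_two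
  rw [ENat.card_coe_set_eq, Set.encard_coe_eq_coe_finsetCard]
  exact_mod_cast h

/-- The cubic graph of a smallest counterexample is cyclically 5-edge-connected. -/
theorem cyc_five {V : Type} [Fintype V] [DecidableEq V] {τ : V × Fin 5 → V × Fin 5} (h : DartSys τ)
    (hcut : ∀ P : Finset V, P.Nonempty → P ≠ univ →
      5 ≤ (univ.filter fun p : V × Fin 5 => p.1 ∈ P ∧ (τ p).1 ∉ P).card)
    (hmult : ∀ v w : V, (univ.filter fun i : Fin 5 => (τ (v, i)).1 = w).card ≤ 2)
    (hsep : ∀ v w : V, v ≠ w → ∀ P Q : Finset V, Disjoint P Q → v ∉ P → w ∉ P → v ∉ Q → w ∉ Q →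
      (∀ x, x ∈ P ∨ x ∈ Q ∨ x = v ∨ x = w) → (∀ p : V × Fin 5, p.1 ∈ P → (τ p).1 ∉ Q) →
      P.card ≤ 1 ∨ Q.card ≤ 1) : CyclicallyFive (SG h) := by
  classical
  intro X h1 h2
  by_contra hlt
  push Not at hlt
  have hge := boundary_ge h X.toFinset
  rw [Set.coe_toFinset] at hge
  rcases key h hcut hmult hsep X.toFinset (by omega) with h3 | h3
  · apply h1
    have := small_acyclic (SG h) _ h3
    rwa [Set.coe_toFinset] at this
  · apply h2
    have := small_acyclic (SG h) _ h3
    rwa [Finset.coe_compl, Set.coe_toFinset] at this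

theorem one_to_three
    (hex : ∃ (V E : Type) (ends : E → Sym2 V), Finite V ∧ Finite E ∧ RegularConnected ends 5 ∧
      ¬ Colourable ends 5) :
    ∃ (V : Type) (S M : SimpleGraph V), Finite V ∧ Cubic S ∧ CyclicallyFive S ∧
      PerfectMatching S M ∧ (∀ c : (S \ M).ConnectedComponent, c.supp.ncard = 5) ∧
      ¬ InFulkersonCover S M := by
  classical
  obtain ⟨V, E, _, _, _, _, ends, hreg, hcol, hsep⟩ := min_counterexample hex
  have hm := mult_le_two ends hreg hcol
  obtain ⟨τ, d, h, h1, h2, h3⟩ := exists_darts ends hreg hm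
  refine ⟨V × Fin 5, SG h, MG h, inferInstance, cubic_SG h, ?_, matching_MG h, comp_five h, ?_⟩
  · refine cyc_five h ?_ ?_ ?_
    · intro P hP0 hP1
      rw [cut_darts ends τ d h h1 h2 h3 P]
      exact hreg.cut P hP0 hP1
    · intro v w
      by_cases hvw : v = w
      · subst hvw
        rw [Finset.filter_eq_empty_iff.2]
        · simp
        · intro i _ hi
          exact h.ne (v, i) hi
      · refine le_trans ?_ (hm v w hvw)
        refine Finset.card_le_card_of_injOn (fun i => d (v, i)) ?_ ?_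
        · intro i hi
          simp only [Finset.coe_filter, Finset.mem_univ, true_and, Set.mem_ofPred_eq] at hi ⊢
          rw [h1 (v, i), hi]
        · intro i hi j hj hij
          rcases (h2 _ _).1 hij with h4 | h4
          · exact (congrArg Prod.snd h4).symm
          · exfalso
            exact h.ne (v, i) (by rw [← h4])
    · intro v w hvw P Q hPQ hvP hwP hvQ hwQ hcov hno
      refine hsep P {v, w} Q ?_ ?_ hPQ ?_ ?_ ?_
      · ext x
        simp only [Finset.mem_union, Finset.mem_insert, Finset.mem_singleton, Finset.mem_univ,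
          iff_true]
        rcases hcov x with h4 | h4 | h4 | h4 <;> tauto
      · rw [Finset.disjoint_insert_right, Finset.disjoint_singleton_right]
        exact ⟨hvP, hwP⟩
      · rw [Finset.disjoint_insert_left, Finset.disjoint_singleton_left]
        exact ⟨hvQ, hwQ⟩
      · exact (Finset.card_le_two).trans (by decide)
      · intro e x hx y hy he
        obtain ⟨p, rfl⟩ := h3 e
        rw [h1 p, Sym2.eq_iff] at he
        rcases he with ⟨h4, h5⟩ | ⟨h4, h5⟩
        · exact hno p (by rw [h4]; exact hx) (by rw [h5]; exact hy)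
        · refine hno (τ p) (by rw [h5]; exact hx) ?_
          rw [h.inv p, h4]; exact hy
  · intro hN
    apply hcol
    obtain ⟨c, hc1, hc2⟩ := colouring_of_cover h hN
    have key1 : ∀ p q, d p = d q → c p = c q := by
      intro p q hpq
      rcases (h2 p q).1 hpq with h4 | h4
      · rw [h4]
      · rw [h4, hc1]
    choose r hr using h3
    refine ⟨fun e => c (r e), ?_⟩
    intro e f hef ⟨v, hve, hvf⟩ hcc
    -- a dart of `e` at `v`
    have key2 : ∀ e, v ∈ ends e → ∃ i, d (v, i) = e := by
      intro e he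
      have he' : v ∈ ends (d (r e)) := by rw [hr e]; exact he
      rw [h1 (r e), Sym2.mem_iff] at he'
      rcases he' with h5 | h5
      · refine ⟨(r e).2, ?_⟩
        have h6 : (v, (r e).2) = r e := by rw [h5]
        rw [h6]
        exact hr e
      · refine ⟨(τ (r e)).2, ?_⟩
        have h6 : (v, (τ (r e)).2) = τ (r e) := by rw [h5]
        rw [h6]
        exact ((h2 (r e) (τ (r e))).2 (Or.inr rfl)).symm.trans (hr e)
    obtain ⟨i, hi⟩ := key2 e hve
    obtain ⟨j, hj⟩ := key2 f hvf
    have hij : i ≠ j := by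
      rintro rfl
      exact hef (hi.symm.trans hj)
    apply hc2 v i j hij
    rw [key1 (v, i) (r e) (by rw [hi, hr e]), key1 (v, j) (r f) (by rw [hj, hr f])]
    exact hcc

theorem two_to_one
    (h : ∃ (V : Type) (S M : SimpleGraph V), Finite V ∧ Cubic S ∧ CyclicallyFive S ∧
      PerfectMatching S M ∧ ¬ InFulkersonCover S M) :
    ∃ (V E : Type) (ends : E → Sym2 V), Finite V ∧ Finite E ∧ RegularConnected ends 5 ∧
      ¬ Colourable ends 5 := by
  obtain ⟨V, S, M, hV, hS, hC, hM, hN⟩ := h
  exact ⟨V, DE S M, dends S M, hV, inferInstance, dbl_regularConnected hS hM hC,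
    fun hc => hN (cover_of_colourable hS hM (dbl_deg hS hM) hc)⟩

end F5
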